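import Pool.Agent.H162R3.SK.Stmts

/-!
Task UN of the project H162-SK: the union of a countable directed family of nice sets is nice
(limit of the maps along an ultrafilter).
-/

set_option autoImplicit false

open Set Filter Topology

namespace Pool.Agent.H978R3.SK.TaskUN

open Pool.Agent.H162R3.SK

lemma ev_map {X : Type} [TopologicalSpace X] (μ : X →₀ ℝ) (r : X → X) (φ : C(X, ℝ)) :
    ev (μ.mapDomain r) φ = ∑ x ∈ μ.support, μ x * φ (r x) := by
  unfold ev
  rw [Finsupp.sum_mapDomain_index (by simp) (by intros; ring)]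
  rfl

theorem t : Pool.Agent.H162R3.SK.TaskUN := by
  intro X _ _ _ C hC hne hdir hnice
  choose r hr using fun G : C => hnice G.1 G.2
  choose hRet Φ hΦc hΦ using hr
  have : Nonempty C := hne.to_subtype
  have : IsDirected C (· ≤ ·) := ⟨fun a b => by
    obtain ⟨c, hc, h1, h2⟩ := hdir a.1 a.2 b.1 b.2
    exact ⟨⟨c, hc⟩, h1, h2⟩⟩
  let U : Ultrafilter C := Ultrafilter.of atTop
  have hU : (U : Filter C) ≤ atTop := Ultrafilter.of_le _
  let r' : X → X := fun x => (U.map (fun G => r G x)).lim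
  have hlim : ∀ x, Tendsto (fun G => r G x) (U : Filter C) (𝓝 (r' x)) := fun x =>
    (U.map (fun G => r G x)).le_nhds_lim
  have hsub : ∀ G : C, G.1 ⊆ ⋃₀ C := fun G => subset_sUnion_of_mem G.2
  refine ⟨r', ⟨fun x => ?_, fun ψ hψ x => ?_⟩, fun φ => ?_⟩
  · refine isClosed_closure.mem_of_tendsto (hlim x) (Eventually.of_forall fun G => ?_)
    have h1 : Pt G.1 ⊆ Pt (⋃₀ C) := fun y hy => hsub G hy
    exact closure_mono h1 ((hRet G).1 x)
  · obtain ⟨G, hG, hGψ⟩ := hψ
    have h1 : Tendsto (fun G => ψ (r G x)) (U : Filter C) (𝓝 (ψ (r' x))) :=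
      (ψ.continuous.tendsto _).comp (hlim x)
    have h2 : Tendsto (fun G => ψ (r G x)) (U : Filter C) (𝓝 (ψ x)) := by
      refine Tendsto.congr' ?_ tendsto_const_nhds
      have h3 : ∀ᶠ G' : C in (U : Filter C), (⟨G, hG⟩ : C) ≤ G' := hU (eventually_ge_atTop _)
      filter_upwards [h3] with G' hG'
      exact ((hRet G').2 ψ (hG' hGψ) x).symm
    exact tendsto_nhds_unique h1 h2
  · have : Countable C := hC.to_subtype
    refine ⟨⋃ G : C, Φ G φ, countable_iUnion fun G => hΦc G φ, fun μ hμ => ?_⟩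
    rw [ev_map]
    have h1 : Tendsto (fun G => ∑ x ∈ μ.support, μ x * φ (r G x)) (U : Filter C)
        (𝓝 (∑ x ∈ μ.support, μ x * φ (r' x))) := by
      refine tendsto_finsetSum _ fun x _ => ?_
      exact ((φ.continuous.tendsto _).comp (hlim x)).const_mul _
    have h2 : Tendsto (fun G => ∑ x ∈ μ.support, μ x * φ (r G x)) (U : Filter C) (𝓝 0) := by
      refine Tendsto.congr (fun G => ?_) tendsto_const_nhds
      rw [← ev_map]
      exact (hΦ G φ μ (fun ψ hψ => hμ ψ (mem_iUnion.2 ⟨G, hψ⟩))).symm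
    exact tendsto_nhds_unique h1 h2

end Pool.Agent.H978R3.SK.TaskUN
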